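import Mathlib
import Pool.Agent.Helper84.NCGeneral

set_option autoImplicit false

namespace Pool.Agent.Y241.NC

open Pool.Agent.Helper84 Pool.Agent.Helper84.NCExpr

/-- Renaming the two variables of an expression into a larger set of variables. -/
def rename {k g : Type} (f : Fin 2 → g) : NCExpr k (Fin 2) → NCExpr k g
  | .scalar c => .scalar c
  | .var i => .var (f i)
  | .add a b => .add (rename f a) (rename f b)
  | .mul a b => .mul (rename f a) (rename f b)
  | .inv a => .inv (rename f a)

theorem eval_rename {k g : Type} [Field k] (f : Fin 2 → g) {R : Type} [Ring R] [Algebra k R]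
    (X : g → R) (e : NCExpr k (Fin 2)) :
    (rename f e).eval X = e.eval (fun i => X (f i)) := by
  induction e with
  | scalar c => rfl
  | var i => rfl
  | add a b iha ihb => simp only [rename, NCExpr.eval, iha, ihb]
  | mul a b iha ihb => simp only [rename, NCExpr.eval, iha, ihb]
  | inv a iha => simp only [rename, NCExpr.eval, iha]

theorem defined_rename {k g : Type} [Field k] (f : Fin 2 → g) {R : Type} [Ring R] [Algebra k R]
    (X : g → R) (e : NCExpr k (Fin 2)) :
    (rename f e).DefinedAt X ↔ e.DefinedAt (fun i => X (f i)) := by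
  induction e with
  | scalar c => exact Iff.rfl
  | var i => exact Iff.rfl
  | add a b iha ihb => simp only [rename, NCExpr.DefinedAt, iha, ihb]
  | mul a b iha ihb => simp only [rename, NCExpr.DefinedAt, iha, ihb]
  | inv a iha => simp only [rename, NCExpr.DefinedAt, iha, eval_rename]

/-- Extending a pair to a family. -/
noncomputable def extTuple {g R : Type} [Ring R] (f : Fin 2 → g) (X : Fin 2 → R) : g → R :=
  fun i => open Classical in if i = f 0 then X 0 else if i = f 1 then X 1 else 0

theorem extTuple_comp {g R : Type} [Ring R] (f : Fin 2 → g) (hf : f 0 ≠ f 1) (X : Fin 2 → R) :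
    (fun i => extTuple f X (f i)) = X := by
  funext i
  fin_cases i
  · simp [extTuple]
  · simp [extTuple, hf.symm]

/-- The main local argument: an expression `e'` representing `r` has no simple eigenvalue
with values in `K`, as soon as all `K`-points of the curve are excluded by `S`. -/
theorem no_simple_root_g {k : Type} [Field k] {K : Type} [Field K] [Algebra k K] [Infinite K]
    {g : Type} (f : Fin 2 → g)
    {ι : Type} [Fintype ι] [DecidableEq ι] (b : k) (S : List k)
    (hcurve : ∀ l μ : K, μ ^ 2 = l ^ 3 + algebraMap k K b → ∃ s ∈ S, l = algebraMap k K s)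
    (e' : NCExpr k g)
    (hs : ∀ X : g → Matrix ι ι K, (rename f (rE b S)).DefinedAt X → e'.DefinedAt X →
      (rename f (rE b S)).eval X = e'.eval X)
    (X₀ X₁ : g → Matrix ι ι K) (h₀ : e'.DefinedAt X₀)
    (h₁ : (rename f (rE b S)).DefinedAt X₁)
    (c : K) : (e'.eval X₀).charpoly.rootMultiplicity c ≠ 1 := by
  intro hmult
  obtain ⟨q, q', N, N', hq', hq, hNN, H, H'⟩ := path_agree (rename f (rE b S)) e' X₀ X₁ h₀ h₁ hs
  set O := PowerSeries K with hO
  set F := FractionRing O with hF
  set ψO : Polynomial K →ₐ[k] O := polyHom k K with hψO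
  set ψF : Polynomial K →ₐ[k] F := (IsScalarTower.toAlgHom k O F).comp ψO with hψF
  have hinj : Function.Injective ψF := by
    have h1 : Function.Injective (IsScalarTower.toAlgHom k O F) := IsFractionRing.injective O F
    have h2 : Function.Injective ψO := by
      intro p p' h
      have : (Polynomial.coeToPowerSeries.algHom K) p = (Polynomial.coeToPowerSeries.algHom K) p' := h
      simp only [Polynomial.coeToPowerSeries.algHom_apply] at this
      simpa using this
    exact h1.comp h2
  -- definedness over the power series ring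
  have hq'0 : q' ≠ 0 := by rintro rfl; simp at hq'
  have hq0 : q ≠ 0 := by rintro rfl; simp at hq
  have huO : IsUnit (ψO q') := by
    rw [PowerSeries.isUnit_iff_constantCoeff, isUnit_iff_ne_zero]
    have : PowerSeries.constantCoeff (ψO q') = q'.eval 0 := cc_poly (k := k) q'
    rw [this]; exact hq'
  obtain ⟨dO, eO⟩ := H' O ψO huO
  set RO : Matrix ι ι O := e'.eval (fun i => ψO.mapMatrix (path X₀ X₁ i)) with hRO
  -- reduction
  have hred : (ccHom k K).mapMatrix RO = e'.eval X₀ := by
    have := (eval_map ((ccHom k K).mapMatrix : Matrix ι ι O →ₐ[k] Matrix ι ι K)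
      (fun i => ψO.mapMatrix (path X₀ X₁ i)) e' dO).2
    rw [← hRO] at this
    rw [← this]
    congr 1
    refine Eq.trans ?_ (path_zero (k := k) X₀ X₁)
    funext i
    ext a b'
    simp only [AlgHom.mapMatrix_apply, Matrix.map_apply]
    rw [evAt_apply (k := k)]
    exact (cc_poly (k := k) (K := K) _)
  -- lift of the root
  have hchar : RO.charpoly.map (PowerSeries.constantCoeff (R := K)) = (e'.eval X₀).charpoly := by
    rw [← hred]
    exact (Matrix.charpoly_map RO (PowerSeries.constantCoeff (R := K))).symm
  obtain ⟨r, hr1, hr2, hr3⟩ := exists_lift_root RO.charpoly RO.charpoly_monic c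
    (by rw [hchar]; exact hmult)
  -- pass to the fraction field
  set φ : O →ₐ[k] F := IsScalarTower.toAlgHom k O F with hφ
  have hφinj : Function.Injective φ := IsFractionRing.injective O F
  have hRF := eval_map (φ.mapMatrix : Matrix ι ι O →ₐ[k] Matrix ι ι F)
    (fun i => ψO.mapMatrix (path X₀ X₁ i)) e' dO
  have hXF : (fun i => φ.mapMatrix (ψO.mapMatrix (path X₀ X₁ i)))
      = (fun i => ψF.mapMatrix (path X₀ X₁ i)) := by
    funext i
    ext a b'
    simp [hψF, hφ]
  rw [hXF] at hRF
  obtain ⟨dF, eF⟩ := H F ψF (isUnit_iff_ne_zero.mpr (by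
    rw [Ne, map_eq_zero_iff _ hinj]; exact hq0))
  obtain ⟨dF', eF'⟩ := H' F ψF (isUnit_iff_ne_zero.mpr (by
    rw [Ne, map_eq_zero_iff _ hinj]; exact hq'0))
  set XF : g → Matrix ι ι F := fun i => ψF.mapMatrix (path X₀ X₁ i) with hXFdef
  have hagree : (rename f (rE b S)).eval XF = e'.eval XF := by
    have h1 : ψF q • ψF.mapMatrix N' = ψF q' • ψF.mapMatrix N := by
      have := congrArg (ψF.mapMatrix) hNN
      have m1 : ψF.mapMatrix (q • N') = ψF q • ψF.mapMatrix N' := by ext i j; simp
      have m2 : ψF.mapMatrix (q' • N) = ψF q' • ψF.mapMatrix N := by ext i j; simp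
      rwa [m1, m2] at this
    rw [← eF, ← eF', smul_smul, smul_smul, mul_comm (ψF q')] at h1
    have hne : ψF q * ψF q' ≠ 0 := mul_ne_zero
      (by rw [Ne, map_eq_zero_iff _ hinj]; exact hq0)
      (by rw [Ne, map_eq_zero_iff _ hinj]; exact hq'0)
    have := congrArg (fun M => (ψF q * ψF q')⁻¹ • M) h1
    simp only [smul_smul, inv_mul_cancel₀ hne, one_smul] at this
    exact this.symm
  set RF : Matrix ι ι F := e'.eval XF with hRFdef
  have hRF2 : RF = φ.mapMatrix RO := hRF.2
  have hcharF : RF.charpoly = RO.charpoly.map (φ : O →+* F) := by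
    rw [hRF2]
    exact Matrix.charpoly_map RO (φ : O →+* F)
  have hroot : RF.charpoly.IsRoot (φ r) := by
    have h1 : Polynomial.eval r RO.charpoly = 0 := hr1
    have h2 : (φ : O →+* F) r = φ r := rfl
    rw [hcharF, Polynomial.IsRoot, Polynomial.eval_map, ← h2, Polynomial.eval₂_hom, h1, map_zero]
  have hder : ¬ (Polynomial.derivative RF.charpoly).IsRoot (φ r) := by
    have h2 : (φ : O →+* F) r = φ r := rfl
    rw [hcharF, Polynomial.derivative_map, Polynomial.IsRoot, Polynomial.eval_map, ← h2,
      Polynomial.eval₂_hom]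
    exact (hr3.map (φ : O →+* F)).ne_zero
  obtain ⟨v, hv0, hv1, hv2⟩ := exists_common_eigenvector RF (φ r) hroot hder
  -- structure of `r` at `XF`
  rw [defined_rename, defined_rE] at dF
  obtain ⟨hu, hprod⟩ := dF
  obtain ⟨hcomm, hcrv⟩ := lam_mu (fun i => XF (f i)) b hu
  set Lm := (lamE b).eval (fun i => XF (f i)) with hLm
  set Mm := (muE b).eval (fun i => XF (f i)) with hMm
  set Pm := (prodE b S).eval (fun i => XF (f i)) with hPm
  have hPaev : Pm = Polynomial.aeval Lm
      (S.map fun s => (Polynomial.X - Polynomial.C s : Polynomial k)).prod :=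
    eval_prodE (fun i => XF (f i)) b S
  have hRsum : RF = Lm + Ring.inverse Pm := by
    rw [← hagree, eval_rename]
    simp only [rE, NCExpr.eval]
    rfl
  have haev : ∀ (T : Matrix ι ι F), Commute T Lm → Commute T Pm := by
    intro T hT
    rw [hPaev]
    generalize (S.map fun s => (Polynomial.X - Polynomial.C s : Polynomial k)).prod = p
    induction p using Polynomial.induction_on with
    | C a => rw [Polynomial.aeval_C]; exact Algebra.commute_algebraMap_right a T
    | add p q hp hq => rw [map_add]; exact hp.add_right hq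
    | monomial n a h =>
      rw [map_mul, Polynomial.aeval_C, map_pow, Polynomial.aeval_X]
      exact (Algebra.commute_algebraMap_right a T).mul_right (hT.pow_right _)
  have hinvc : ∀ (T : Matrix ι ι F), Commute T Lm → Commute T RF := by
    intro T hT
    rw [hRsum]
    refine hT.add_right ?_
    exact ringInverse_commute (haev T hT)
  have hLR : RF * Lm = Lm * RF := (hinvc Lm (Commute.refl _)).eq.symm
  have hMR : RF * Mm = Mm * RF := (hinvc Mm hcomm.symm).eq.symm
  obtain ⟨l, hl⟩ := hv2 Lm hLR
  obtain ⟨μ, hμ⟩ := hv2 Mm hMR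
  have hvcancel : ∀ a a' : F, a • v = a' • v → a = a' := by
    intro a a' h
    obtain ⟨i, hi⟩ : ∃ i, v i ≠ 0 := by
      by_contra hcon
      push Not at hcon
      exact hv0 (funext hcon)
    have := congrFun h i
    simp only [Pi.smul_apply, smul_eq_mul] at this
    exact mul_right_cancel₀ hi this
  set p : Polynomial k :=
    (S.map fun s => (Polynomial.X - Polynomial.C s : Polynomial k)).prod with hp
  have hpmonic : p.Monic := by
    rw [hp]
    exact monic_listProd S
  have eq1 : μ ^ 2 = l ^ 3 + algebraMap k F b := by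
    apply hvcancel
    have h1 : (Mm ^ 2).mulVec v = (μ ^ 2) • v := by
      rw [sq, ← Matrix.mulVec_mulVec, hμ, Matrix.mulVec_smul, hμ, smul_smul, sq]
    have h2 := mulVec_aeval Lm v l hl (Polynomial.X ^ 3 + Polynomial.C b : Polynomial k)
    simp only [map_add, map_pow, Polynomial.aeval_X, Polynomial.aeval_C] at h2
    rw [← h1, hcrv, h2]
  have eq2 : (φ r - l) * Polynomial.aeval l p = 1 := by
    apply hvcancel
    have h1 : (RF - Lm) * Pm = 1 := by
      rw [hRsum, add_sub_cancel_left, Ring.inverse_mul_cancel Pm hprod]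
    have h2 : ((RF - Lm) * Pm).mulVec v = ((φ r - l) * Polynomial.aeval l p) • v := by
      rw [← Matrix.mulVec_mulVec, hPaev, mulVec_aeval Lm v l hl p, Matrix.mulVec_smul,
        Matrix.sub_mulVec, hv1, hl, ← sub_smul, smul_smul, mul_comm]
    rw [← h2, h1, Matrix.one_mulVec, one_smul]
  obtain ⟨l₀, μ₀, e1, e2⟩ := specialise_point b p hpmonic (ccHom k K) r l μ eq1 eq2
  obtain ⟨s, hsS, hls⟩ := hcurve l₀ μ₀ e1
  have hzero : Polynomial.aeval l₀ p = 0 := by
    rw [hls, hp, map_list_prod]
    apply List.prod_eq_zero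
    rw [List.map_map, List.mem_map]
    exact ⟨s, hsS, by simp⟩
  rw [hzero, mul_zero] at e2
  exact zero_ne_one e2


end Pool.Agent.Y241.NC
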