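import Mathlib
import Pool.Agent.Y241.NC.Main

set_option autoImplicit false

namespace Pool.Agent.Y241.NC

open Pool.Agent.Helper84 Pool.Agent.Helper84.NCExpr

section

variable {k : Type} [Field k] {K : Type} [Field K] [Algebra k K]

/-- With at most one variable an expression is a quotient of polynomials. -/
theorem one_var {g : Type} {n : ℕ} (M : Matrix (Fin n) (Fin n) K) (e : NCExpr k g)
    (h : e.DefinedAt (fun _ : g => M)) :
    ∃ P Q : Polynomial k, IsUnit (Polynomial.aeval M Q) ∧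
      Polynomial.aeval M Q * e.eval (fun _ : g => M) = Polynomial.aeval M P ∧
      ∀ a : K, Polynomial.aeval a Q ≠ 0 → e.DefinedAt (fun _ : g => a) ∧
        Polynomial.aeval a Q * e.eval (fun _ : g => a) = Polynomial.aeval a P := by
  have hcomm : ∀ p q : Polynomial k,
      Polynomial.aeval M p * Polynomial.aeval M q = Polynomial.aeval M q * Polynomial.aeval M p := by
    intro p q
    rw [← map_mul, ← map_mul, mul_comm]
  induction e with
  | scalar c =>
    refine ⟨Polynomial.C c, 1, by simp, by simp [NCExpr.eval], ?_⟩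
    intro a _
    exact ⟨trivial, by simp [NCExpr.eval]⟩
  | var i =>
    refine ⟨Polynomial.X, 1, by simp, by simp [NCExpr.eval], ?_⟩
    intro a _
    exact ⟨trivial, by simp [NCExpr.eval]⟩
  | add a b iha ihb =>
    obtain ⟨P1, Q1, u1, e1, f1⟩ := iha h.1
    obtain ⟨P2, Q2, u2, e2, f2⟩ := ihb h.2
    refine ⟨Q2 * P1 + Q1 * P2, Q1 * Q2, ?_, ?_, ?_⟩
    · rw [map_mul]; exact u1.mul u2
    · simp only [NCExpr.eval, map_mul, map_add]
      rw [mul_add]
      congr 1
      · rw [hcomm Q1 Q2, mul_assoc, e1]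
      · rw [mul_assoc, e2]
    · intro c hc
      rw [map_mul] at hc
      obtain ⟨d1, g1⟩ := f1 c (left_ne_zero_of_mul hc)
      obtain ⟨d2, g2⟩ := f2 c (right_ne_zero_of_mul hc)
      refine ⟨⟨d1, d2⟩, ?_⟩
      simp only [NCExpr.eval, map_mul, map_add]
      rw [← g1, ← g2]
      ring
  | mul a b iha ihb =>
    obtain ⟨P1, Q1, u1, e1, f1⟩ := iha h.1
    obtain ⟨P2, Q2, u2, e2, f2⟩ := ihb h.2
    have hA : a.eval (fun _ : g => M) * Polynomial.aeval M Q2
        = Polynomial.aeval M Q2 * a.eval (fun _ : g => M) := by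
      apply u1.mul_left_cancel
      rw [← mul_assoc, e1, ← mul_assoc, hcomm Q1 Q2, mul_assoc, e1, hcomm]
    refine ⟨P1 * P2, Q1 * Q2, ?_, ?_, ?_⟩
    · rw [map_mul]; exact u1.mul u2
    · simp only [NCExpr.eval, map_mul]
      rw [← e1, ← e2]
      rw [mul_assoc, mul_assoc, ← mul_assoc (Polynomial.aeval M Q2), ← hA]
      simp only [mul_assoc]
    · intro c hc
      rw [map_mul] at hc
      obtain ⟨d1, g1⟩ := f1 c (left_ne_zero_of_mul hc)
      obtain ⟨d2, g2⟩ := f2 c (right_ne_zero_of_mul hc)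
      refine ⟨⟨d1, d2⟩, ?_⟩
      simp only [NCExpr.eval, map_mul]
      rw [← g1, ← g2]
      ring
  | inv a iha =>
    obtain ⟨P1, Q1, u1, e1, f1⟩ := iha h.1
    have hu : IsUnit (a.eval (fun _ : g => M)) := h.2
    have hP : IsUnit (Polynomial.aeval M P1) := by rw [← e1]; exact u1.mul hu
    refine ⟨Q1 * Q1, P1 * Q1, ?_, ?_, ?_⟩
    · rw [map_mul]; exact hP.mul u1
    · simp only [NCExpr.eval, map_mul]
      rw [hcomm P1 Q1]
      conv_lhs => rw [← e1]
      rw [mul_assoc, mul_assoc, Ring.mul_inverse_cancel _ hu, mul_one]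
    · intro c hc
      rw [map_mul] at hc
      have hQc := right_ne_zero_of_mul hc
      have hPc := left_ne_zero_of_mul hc
      obtain ⟨d1, g1⟩ := f1 c hQc
      have hac : a.eval (fun _ : g => c) ≠ 0 := by
        intro h0
        rw [h0, mul_zero] at g1
        exact hPc g1.symm
      refine ⟨⟨d1, isUnit_iff_ne_zero.mpr hac⟩, ?_⟩
      simp only [NCExpr.eval, map_mul]
      rw [Ring.inverse_eq_inv', ← g1]
      field_simp

/-- With at most one variable the answer is positive. -/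
theorem not_noSimple {g : Type} (hg : ¬ Nontrivial g) : ¬ NoSimple k g := by
  classical
  rw [not_nontrivial_iff_subsingleton] at hg
  rintro ⟨r, ⟨n, X, hn, hX⟩, hr⟩
  obtain ⟨M, hM⟩ : ∃ M : Matrix (Fin n) (Fin n) (RatFunc k), X = fun _ => M := by
    by_cases hne : Nonempty g
    · obtain ⟨i⟩ := hne
      exact ⟨X i, funext fun j => by rw [Subsingleton.elim j i]⟩
    · exact ⟨0, funext fun j => (hne ⟨j⟩).elim⟩
  subst hM
  obtain ⟨P, Q, hu, _, hQ⟩ := one_var M r hX
  haveI : Nonempty (Fin n) := ⟨⟨0, hn⟩⟩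
  have hQ0 : Q ≠ 0 := by
    rintro rfl
    rw [map_zero] at hu
    exact not_isUnit_zero hu
  obtain ⟨a, ha⟩ : ∃ a : RatFunc k, Polynomial.aeval a Q ≠ 0 := by
    by_contra hcon
    push Not at hcon
    have h0 : Q.map (algebraMap k (RatFunc k)) = 0 :=
      Polynomial.funext (fun c => by rw [Polynomial.eval_map, Polynomial.eval_zero]; exact hcon c)
    exact hQ0 ((Polynomial.map_eq_zero _).mp h0)
  obtain ⟨hd, _⟩ := hQ a ha
  let φ : RatFunc k →ₐ[k] Matrix (Fin 1) (Fin 1) (RatFunc k) :=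
    (Algebra.ofId (RatFunc k) (Matrix (Fin 1) (Fin 1) (RatFunc k))).restrictScalars k
  have h1 := eval_map φ (fun _ : g => a) r hd
  refine hr r (fun _ _ _ _ => rfl) 1 one_pos _ h1.1 ((r.eval fun i => φ ((fun _ => a) i)) 0 0) ?_
  have hc1 : ∀ A : Matrix (Fin 1) (Fin 1) (RatFunc k),
      A.charpoly = Polynomial.X - Polynomial.C (A 0 0) := by
    intro A
    rw [Matrix.charpoly, Matrix.det_unique]
    simp [Matrix.charmatrix_apply_eq]
  rw [hc1]
  exact Polynomial.rootMultiplicity_X_sub_C_self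

end

end Pool.Agent.Y241.NC
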